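import Pool.Agent.Run7.h717.RF.Main

/-!
# Residual finiteness growth depends only on the complex Mal'cev completion

`rfGrowth S` is the residual finiteness growth with respect to `S`, `GrowthEquiv` the equivalence of
growth functions, `MalcevCompletion G` the rational Mal'cev completion `exp L` of `G` inside a group of
rational unipotent matrices, and `CLie` the complexification of its Lie algebra `L`.
-/

set_option autoImplicit false

open Pool.Agent.TH91.RF

/-- If `G₁` and `G₂` are finitely generated torsion-free nilpotent groups whose complex Mal'cev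
completions are isomorphic, then their residual finiteness growth functions are equivalent. -/
theorem Pool.Agent.Results.MP_67ef3c_al.ComplexMalcev.result :
    ∀ (G₁ G₂ : Type) [Group G₁] [Group G₂],
      Group.IsNilpotent G₁ → Group.IsNilpotent G₂ →
      (∀ (g : G₁) (n : ℕ), 0 < n → g ^ n = 1 → g = 1) →
      (∀ (g : G₂) (n : ℕ), 0 < n → g ^ n = 1 → g = 1) →
      ∀ (S₁ : Set G₁) (S₂ : Set G₂), S₁.Finite → S₂.Finite →
        Subgroup.closure S₁ = ⊤ → Subgroup.closure S₂ = ⊤ →
        (∃ (c₁ : MalcevCompletion G₁) (c₂ : MalcevCompletion G₂),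
          Nonempty (c₁.CLie ≃ₗ⁅ℂ⁆ c₂.CLie)) →
        GrowthEquiv (rfGrowth S₁) (rfGrowth S₂) := by
  intro G₁ G₂ _ _ h₁ h₂ _ _ S₁ S₂ hS₁ hS₂ hgen₁ hgen₂ ⟨c₁, c₂, ⟨φ⟩⟩
  exact Pool.Agent.Run7.h717.RF.main S₁ S₂ hS₁ hS₂ hgen₁ hgen₂ c₁ c₂ φ
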